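import Pool.Agent.Q41.RA.A6

set_option autoImplicit false

/-!
# Partitions without parts congruent to 3 modulo 6 on progressions (MP_24de68_nt, Q2)

Let `a(n)` be the number of partitions of `n` in which no part is congruent to 3 modulo 6. If a
progression `A n + B` avoids the classes 2 and 3 modulo 4, then `a(A n + B)` is odd for some `n`: the
assertion of Q2 holds.

Method. Modulo 2 the coefficients `a(4 m)` and `a(4 m + 1)` are those of `f_1 ^ 2 / f_3` and
`f_3 ^ 2 / f_1`. For both series there is no progression on which all coefficients are even: the
second case is treated as in the file `MP_72e75e_nt/NoCongruence`. In the first case, with the notation of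
that file, the flipping automorphism maps the series at the vertex `(1, 3 b)` to the one at the top
vertex `(1, R)` and the three lower neighbours `(1, b)`, `(ω, b)`, `(ω ^ 2, b)` to `(1, 3 R)`,
`(ω ^ 2, R / 3)`, `(ω, R / 3)`, because of the identity
`D(ω t) - D(t ^ 9) = ω (D(t) - D(t ^ 9))`. The series at the last two vertices have the terms of the
smallest order, and the cubes of their leading coefficients differ; so the image of a linear
relation cannot hold.
-/

namespace Pool.Agent.Results.MP_24de68_nt.NoEvenProgression

/-- the number of the partitions of `n` in which no part is congruent to 3 modulo 6 -/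
def a (n : ℕ) : ℕ :=
  ((Finset.univ : Finset (Nat.Partition n)).filter fun P => ∀ i ∈ P.parts, i % 6 ≠ 3).card

theorem result (A B : ℕ) (hA : 1 ≤ A)
    (hB : ∀ n : ℕ, (A * n + B) % 4 ≠ 2 ∧ (A * n + B) % 4 ≠ 3) :
    ∃ n : ℕ, Odd (a (A * n + B)) :=
  Pool.Agent.Q41.RA.a36_odd A B hA hB

end Pool.Agent.Results.MP_24de68_nt.NoEvenProgression
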